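import Mathlib
import Pool.Agent.PrimeChains.Search

/-!
Soundness of the finite search, and its consequence for sequences `x (j+1) = a j * x j + 1` with
all `a j` in `{2, 4, 6}` and all `x j` prime to `3 * 5 * 7 * 11 * 13 * 17 * 19 * 23`.
-/

set_option autoImplicit false

namespace Pool.Agent.PrimeChains

/-- The state `S` allows the residues of `y`. -/
def Rep (S y : ℕ) : Prop := ∀ b ∈ blocks, Nat.testBit S (b.2 + y % b.1) = true

/-- The number `y` is prime to the primes used. -/
def Good (y : ℕ) : Prop := ∀ b ∈ blocks, y % b.1 ≠ 0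

theorem table_complete (m : ℕ) (T : List (ℕ × ℕ))
    (h : (m = 2 ∧ T = T2) ∨ (m = 4 ∧ T = T4) ∨ (m = 6 ∧ T = T6)) :
    ∀ b ∈ blocks, ∀ r < b.1, r ≠ 0 → (m * r + 1) % b.1 ≠ 0 →
      (2 ^ (b.2 + r), 2 ^ (b.2 + (m * r + 1) % b.1)) ∈ T := by
  rcases h with ⟨rfl, rfl⟩ | ⟨rfl, rfl⟩ | ⟨rfl, rfl⟩ <;> decide +kernel

theorem foldl_mono (T : List (ℕ × ℕ)) (S acc i : ℕ) (h : Nat.testBit acc i = true) :
    Nat.testBit (T.foldl (fun acc e => cond (Nat.beq (Nat.land S e.1) 0) acc (Nat.lor acc e.2))
      acc) i = true := by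
  induction T generalizing acc with
  | nil => simpa using h
  | cons e T ih =>
    simp only [List.foldl_cons]
    apply ih
    cases Nat.beq (Nat.land S e.1) 0 with
    | true => simpa using h
    | false =>
      show Nat.testBit (acc ||| e.2) i = true
      simp [h]

theorem foldl_bit (T : List (ℕ × ℕ)) (S acc i : ℕ) (e : ℕ × ℕ) (he : e ∈ T)
    (hS : S &&& e.1 ≠ 0) (hi : Nat.testBit e.2 i = true) :
    Nat.testBit (T.foldl (fun acc e => cond (Nat.beq (Nat.land S e.1) 0) acc (Nat.lor acc e.2))
      acc) i = true := by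
  induction T generalizing acc with
  | nil => simp at he
  | cons e' T ih =>
    simp only [List.foldl_cons]
    rcases List.mem_cons.mp he with rfl | he
    · apply foldl_mono
      have : Nat.beq (Nat.land S e.1) 0 = false := by
        cases hb : Nat.beq (Nat.land S e.1) 0 with
        | false => rfl
        | true => exact absurd (Nat.eq_of_beq_eq_true hb) hS
      rw [this]
      show Nat.testBit (acc ||| e.2) i = true
      simp [hi]
    · exact ih _ he

theorem rep_step (m : ℕ) (T : List (ℕ × ℕ))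
    (h : (m = 2 ∧ T = T2) ∨ (m = 4 ∧ T = T4) ∨ (m = 6 ∧ T = T6)) (S y : ℕ) (hS : Rep S y)
    (hy : Good y) (hy' : Good (m * y + 1)) : Rep (step T S) (m * y + 1) := by
  intro b hb
  have hbpos : 0 < b.1 := by
    revert b
    decide
  have hmod : (m * y + 1) % b.1 = (m * (y % b.1) + 1) % b.1 := by
    simp [Nat.add_mod, Nat.mul_mod]
  have h1 := table_complete m T h b hb (y % b.1) (Nat.mod_lt _ hbpos) (hy b hb)
    (by rw [← hmod]; exact hy' b hb)
  rw [← hmod] at h1
  refine foldl_bit T S 0 _ _ h1 ?_ ?_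
  · intro h0
    have h2 := hS b hb
    have h3 : Nat.testBit (S &&& 2 ^ (b.2 + y % b.1)) (b.2 + y % b.1) = true := by
      simp [h2]
    simp only [h0] at h3
    simp at h3
  · simp

theorem mask_bits : ∀ b ∈ blocks, ∀ r < b.1,
    Nat.testBit ((2 ^ b.1 - 1) * 2 ^ b.2) (b.2 + r) = true := by decide +kernel

theorem masks_eq : masks = blocks.map (fun b => (2 ^ b.1 - 1) * 2 ^ b.2) := by decide +kernel

theorem alive_of_forall (S : ℕ) (l : List ℕ) (h : ∀ M ∈ l, S &&& M ≠ 0) : alive S l = true := by
  induction l with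
  | nil => rfl
  | cons M l ih =>
    have h1 : Nat.beq (Nat.land S M) 0 = false := by
      cases hb : Nat.beq (Nat.land S M) 0 with
      | false => rfl
      | true => exact absurd (Nat.eq_of_beq_eq_true hb) (h M (by simp))
    simp only [alive, h1, cond_false]
    exact ih (fun M' hM' => h M' (by simp [hM']))

theorem alive_of_rep (S y : ℕ) (hS : Rep S y) : alive S masks = true := by
  rw [masks_eq]
  apply alive_of_forall
  intro M hM
  obtain ⟨b, hb, rfl⟩ := List.mem_map.mp hM
  have hbpos : 0 < b.1 := by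
    revert b
    decide
  intro h0
  have h1 := hS b hb
  have h2 := mask_bits b hb (y % b.1) (Nat.mod_lt _ hbpos)
  have h3 : Nat.testBit (S &&& ((2 ^ b.1 - 1) * 2 ^ b.2)) (b.2 + y % b.1) = true := by
    simp only [Nat.testBit_and, h1, h2, Bool.and_self]
  rw [h0] at h3
  simp at h3

theorem rep_full (y : ℕ) (hy : Good y) : Rep full y := by
  intro b hb
  have hbpos : 0 < b.1 := by
    revert b
    decide
  have key : ∀ b ∈ blocks, ∀ r < b.1, r ≠ 0 → Nat.testBit full (b.2 + r) = true := by
    decide +kernel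
  exact key b hb _ (Nat.mod_lt _ hbpos) (hy b hb)

theorem force_eq {α : Type} (n : ℕ) (f : ℕ → α) : force n f = f n := by
  cases n <;> rfl

/-- The history of the sequence `a` after `t` further multipliers. -/
def hist (a : ℕ → ℕ) (h : List ℕ) : ℕ → List ℕ
  | 0 => h
  | t + 1 => a t :: hist a h t

theorem hist_shift (a : ℕ → ℕ) (h : List ℕ) (t : ℕ) :
    hist a h (t + 1) = hist (fun j => a (j + 1)) (a 0 :: h) t := by
  induction t with
  | zero => rfl
  | succ t ih =>
    rw [hist, ih]
    rfl

theorem dead_sound (ex : List ℕ → Bool) (n : ℕ) : ∀ (h : List ℕ) (S : ℕ) (x a : ℕ → ℕ),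
    (∀ j, x (j + 1) = a j * x j + 1) → (∀ j, a j = 2 ∨ a j = 4 ∨ a j = 6) →
    (∀ j, Good (x j)) → Rep S (x 0) → dead ex n h S = true →
    ∃ t, 1 ≤ t ∧ t ≤ n ∧ ex (hist a h t) = true := by
  induction n with
  | zero =>
    intro h S x a _ _ _ _ hd
    simp [dead] at hd
  | succ n ih =>
    intro h S x a hrec ha hx hS hd
    -- the three branches
    have branch : ∀ (T : List (ℕ × ℕ)) (m : ℕ),
        ((m = 2 ∧ T = T2) ∨ (m = 4 ∧ T = T4) ∨ (m = 6 ∧ T = T6)) → a 0 = m →
        (cond (alive (step T S) masks)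
          (cond (ex (m :: h)) true (dead ex n (m :: h) (step T S))) true) = true →
        ∃ t, 1 ≤ t ∧ t ≤ n + 1 ∧ ex (hist a h t) = true := by
      intro T m hT ham hc
      have hrep : Rep (step T S) (x 1) := by
        rw [hrec 0, ham]
        refine rep_step m T hT S (x 0) hS (hx 0) ?_
        rw [← ham, ← hrec 0]
        exact hx 1
      rw [alive_of_rep _ _ hrep, cond_true] at hc
      cases hex : ex (m :: h) with
      | true =>
        exact ⟨1, le_rfl, by omega, by simpa [hist, ham] using hex⟩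
      | false =>
        rw [hex, cond_false] at hc
        obtain ⟨t, ht1, ht2, ht3⟩ := ih (m :: h) (step T S) (fun j => x (j + 1))
          (fun j => a (j + 1)) (fun j => hrec (j + 1)) (fun j => ha (j + 1))
          (fun j => hx (j + 1)) hrep hc
        refine ⟨t + 1, by omega, by omega, ?_⟩
        rw [hist_shift, ham]
        exact ht3
    simp only [dead, force_eq] at hd
    have split : ∀ p q r : Bool, cond p (cond q r false) false = true →
        p = true ∧ q = true ∧ r = true := by decide
    obtain ⟨h2, h4, h6⟩ := split _ _ _ hd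
    rcases ha 0 with h0 | h0 | h0
    · exact branch T2 2 (by simp) h0 h2
    · exact branch T4 4 (by simp) h0 h4
    · exact branch T6 6 (by simp) h0 h6

end Pool.Agent.PrimeChains
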